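import Pool.Agent.W_4481e3_q87.GoR
import Pool.Agent.W_4481e3_tab.T8

/-!
Tree s20o8, data 6.
-/

namespace Pool.Agent.W_4481e3_rt.s20o8

open Pool.Agent.W_4481e3_q25.EvR

theorem k124 : ckO Pool.Agent.W_4481e3_tab.T8.tab 1144800 2220640 16777216 4194304 5931008 8388608 5 2621440 524288 524288 524288 515354132 515354132 7172260 7172260 268435456 268435456 16777216 16777216 8472495 8472495 0x102000c02000c202000c02000c03000c202000c03000c2121 = true := by decide +kernel

theorem k127 : ckO Pool.Agent.W_4481e3_tab.T8.tab 1144800 2220640 16777216 4194304 5931008 8388608 5 2621440 524288 524288 524288 522526392 493837352 14344520 14344520 268435456 268435456 16777216 16777216 8472495 8472495 0x100000c00000c01000c201070c1201000c01007c01003c121 = true := by decide +kernel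

theorem k129 : ckO Pool.Agent.W_4481e3_tab.T8.tab 1144800 2220640 16777216 4194304 5931008 8388608 10 2621440 524288 524288 524288 493837352 508181872 14344520 28689040 268435456 268435456 16777216 16777216 8472495 8472495 0x100000c00000c00000c00000c00000c02000c12100000c00000c200000c00000c202000c102000c02000c202000c03000c102000c03000c04000c212121212 = true := by decide +kernel

end Pool.Agent.W_4481e3_rt.s20o8
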